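import Mathlib

namespace Pool.Agent.Results.MP_c852bb_co.Exists

def IsLD {V : Type} (G : SimpleGraph V) (D : Finset V) : Prop :=
  (∀ v, v ∉ D → ∃ u ∈ D, G.Adj v u) ∧
    ∀ u v, u ∉ D → v ∉ D → u ≠ v → G.neighborSet u ∩ D ≠ G.neighborSet v ∩ D

def IsLDC {V : Type} [Fintype V] [DecidableEq V] (G : SimpleGraph V)
    (P : Finpartition (Finset.univ : Finset V)) : Prop :=
  ∀ X ∈ P.parts, ¬ IsLD G X ∧ ∃ Y ∈ P.parts, Y ≠ X ∧ ¬ IsLD G Y ∧ IsLD G (X ∪ Y)

lemma single {V : Type} [Fintype V] [DecidableEq V] (G : SimpleGraph V) (h : 3 ≤ Fintype.card V)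
    (v : V) : ¬ IsLD G {v} := by
  intro hv
  have hc : 1 < (Finset.univ.erase v).card := by
    rw [Finset.card_erase_of_mem (Finset.mem_univ v), Finset.card_univ]
    omega
  obtain ⟨a, ha, b, hb, hab⟩ := Finset.one_lt_card.mp hc
  have ha' : a ∉ ({v} : Finset V) := by simpa using ha
  have hb' : b ∉ ({v} : Finset V) := by simpa using hb
  obtain ⟨x, hx, h1⟩ := hv.1 a ha'
  obtain ⟨y, hy, h2⟩ := hv.1 b hb'
  rw [Finset.mem_singleton] at hx hy
  rw [hx] at h1
  rw [hy] at h2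
  apply hv.2 a b ha' hb' hab
  ext z
  simp only [Finset.coe_singleton, Set.mem_inter_iff, SimpleGraph.mem_neighborSet,
    Set.mem_singleton_iff]
  constructor
  · rintro ⟨_, rfl⟩
    exact ⟨h2, rfl⟩
  · rintro ⟨_, rfl⟩
    exact ⟨h1, rfl⟩

lemma main {V : Type} [Fintype V] [DecidableEq V] (G : SimpleGraph V) (h : 3 ≤ Fintype.card V) :
    ∃ P : Finpartition (Finset.univ : Finset V), IsLDC G P := by
  classical
  haveI : Nonempty V := Fintype.card_pos_iff.mp (by omega)
  obtain ⟨v0⟩ := this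
  obtain ⟨X, hX, hmax⟩ := Finset.exists_max_image (Finset.univ.filter fun X => ¬ IsLD G X)
    Finset.card ⟨{v0}, by simpa using single G h v0⟩
  have hX : ¬ IsLD G X := by simpa using hX
  have hpos : X.Nonempty := by
    have := hmax {v0} (by simpa using single G h v0)
    exact Finset.card_pos.mp (by simpa using this)
  have hadd : ∀ v, v ∉ X → IsLD G (X ∪ {v}) := by
    intro v hv
    by_contra hn
    have := hmax _ (Finset.mem_filter.mpr ⟨Finset.mem_univ _, hn⟩)
    rw [Finset.card_union_of_disjoint (by simpa using hv), Finset.card_singleton] at this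
    omega
  obtain ⟨w, hw⟩ : ∃ w, w ∉ X := by
    by_contra hn
    push Not at hn
    exact hX ⟨fun v hv => absurd (hn v) hv, fun u _ hu => absurd (hn u) hu⟩
  have hne : ∀ v, v ∉ X → ({v} : Finset V) ≠ X := fun v hv e =>
    hv (e ▸ Finset.mem_singleton_self v)
  let T : Finset (Finset V) := insert X (Xᶜ.image fun v => {v})
  have hT : ∀ Y, Y ∈ T ↔ Y = X ∨ ∃ v, v ∉ X ∧ {v} = Y := by
    intro Y
    simp [T]
  refine ⟨Finpartition.ofExistsUnique T (fun _ _ => Finset.subset_univ _) ?_ ?_, ?_⟩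
  · intro a _
    by_cases ha : a ∈ X
    · refine ⟨X, ⟨(hT X).mpr (Or.inl rfl), ha⟩, ?_⟩
      rintro Y ⟨hY, haY⟩
      rcases (hT Y).mp hY with rfl | ⟨v, hv, rfl⟩
      · rfl
      · exact absurd (Finset.mem_singleton.mp haY ▸ ha) hv
    · refine ⟨{a}, ⟨(hT _).mpr (Or.inr ⟨a, ha, rfl⟩), Finset.mem_singleton_self a⟩, ?_⟩
      rintro Y ⟨hY, haY⟩
      rcases (hT Y).mp hY with rfl | ⟨v, hv, rfl⟩
      · exact absurd haY ha
      · rw [Finset.mem_singleton.mp haY]
  · intro h0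
    rcases (hT _).mp h0 with e | ⟨v, _, e⟩
    · exact hpos.ne_empty e.symm
    · exact Finset.singleton_ne_empty v e
  · intro Y hY
    rcases (hT Y).mp hY with rfl | ⟨v, hv, rfl⟩
    · exact ⟨hX, {w}, (hT _).mpr (Or.inr ⟨w, hw, rfl⟩), hne w hw, single G h w, hadd w hw⟩
    · refine ⟨single G h v, X, (hT _).mpr (Or.inl rfl), (hne v hv).symm, hX, ?_⟩
      rw [Finset.union_comm]
      exact hadd v hv

theorem result (V : Type) [Fintype V] [DecidableEq V] (G : SimpleGraph V) :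
    (3 ≤ Fintype.card V → ∃ P : Finpartition (Finset.univ : Finset V), IsLDC G P) ∧
    (G.Connected → G.diam = 2 → ∃ P : Finpartition (Finset.univ : Finset V), IsLDC G P) := by
  refine ⟨main G, fun hc hd => main G ?_⟩
  haveI := hc.nonempty
  obtain ⟨u, v, huv⟩ := G.exists_dist_eq_diam
  obtain ⟨p, hp, hl⟩ := hc.exists_path_of_dist u v
  have := hp.length_lt
  omega

end Pool.Agent.Results.MP_c852bb_co.Exists
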